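import Mathlib

open Filter AddCircle
open scoped ENNReal

namespace Pool.Agent.LacunaryBlocks

/-- The conditions on the sequence `(r_k)`. -/
def Admissible (r : ℕ → ℝ) : Prop :=
  Monotone r ∧ (∀ k : ℕ, 0 < r k ∧ r k < (2 : ℝ) ^ ((k : ℤ) - 10)) ∧ Tendsto r atTop atTop

/-- The set `A` of integers lying in some interval `[2^k - r_k, 2^k + r_k]`. -/
def specSet (r : ℕ → ℝ) : Set ℤ :=
  {n | ∃ k : ℕ, (2 : ℝ) ^ k - r k ≤ (n : ℝ) ∧ (n : ℝ) ≤ (2 : ℝ) ^ k + r k}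

/-- `lam r 0 = 0` and `lam r (s+1)` is the least index `m` with `r_m ≥ 2 ^ lam r s`. -/
noncomputable def lam (r : ℕ → ℝ) : ℕ → ℕ
  | 0 => 0
  | s + 1 => sInf {m : ℕ | (2 : ℝ) ^ lam r s ≤ r m}

/-- The block square sum, a value in `[0, ∞]`. -/
noncomputable def Phi (r : ℕ → ℝ) (g : C(UnitAddCircle, ℂ)) : ℝ≥0∞ :=
  ∑' s : ℕ, (∑ k ∈ Finset.Ico (lam r s) (lam r (s + 1)), ‖fourierCoeff g ((2 : ℤ) ^ k)‖ₑ) ^ 2

/-- The inequality asked about in Q1, for the sequence `r`. -/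
def BlockBound (r : ℕ → ℝ) : Prop :=
  ∃ C : ℝ, ∀ f : C(UnitAddCircle, ℂ), (∀ n : ℤ, n ∉ specSet r → fourierCoeff f n = 0) →
    Phi r f ≤ ENNReal.ofReal (C * ‖f‖ ^ 2)

end Pool.Agent.LacunaryBlocks
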