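import Pool.Agent.LacunaryBlocks.Defs

/-!
# Block square sums of lacunary Fourier coefficients

The inequality of MP_b4ed43_an holds for an admissible sequence exactly when its block lengths are
bounded. When they are not, take long blocks, far apart, and put
`f_{i+1} = f_i + (1 - |f_i|^2) u_i`, where `u_i` is half the average of `4^(i+1)` characters of the
`i`-th chosen block. Then `|f_i| ≤ 1` everywhere, the mean of `|f_i|` stays at most `1/2`, and the
block sums of `|f^(2^k)|` stay at least `1/4`.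
-/

open MeasureTheory Filter Topology AddCircle
open scoped ENNReal Pointwise

namespace Pool.Agent.LacunaryBlocks

/-! ### Trigonometric polynomials with given spectrum -/

noncomputable section

def V (S : Set ℤ) : Submodule ℂ C(UnitAddCircle, ℂ) :=
  Submodule.span ℂ ((fun n : ℤ => (fourier n : C(UnitAddCircle, ℂ))) '' S)

lemma V_mono {S S' : Set ℤ} (h : S ⊆ S') : V S ≤ V S' :=
  Submodule.span_mono (Set.image_mono h)

lemma fourier_mem_V {S : Set ℤ} {n : ℤ} (h : n ∈ S) :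
    (fourier n : C(UnitAddCircle, ℂ)) ∈ V S := Submodule.subset_span ⟨n, h, rfl⟩

lemma mul_mem_V {S S' : Set ℤ} {f g : C(UnitAddCircle, ℂ)} (hf : f ∈ V S) (hg : g ∈ V S') :
    f * g ∈ V (S + S') := by
  have h : f * g ∈ V S * V S' := Submodule.mul_mem_mul hf hg
  unfold V at h
  rw [Submodule.span_mul_span] at h
  refine Submodule.span_mono ?_ h
  rintro _ ⟨_, ⟨m, hm, rfl⟩, _, ⟨n, hn, rfl⟩, rfl⟩
  refine ⟨m + n, Set.add_mem_add hm hn, ?_⟩
  ext x
  exact fourier_add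

lemma star_mem_V {S : Set ℤ} {f : C(UnitAddCircle, ℂ)} (hf : f ∈ V S) : star f ∈ V (-S) := by
  unfold V at hf
  induction hf using Submodule.span_induction with
  | mem x hx =>
    obtain ⟨n, hn, rfl⟩ := hx
    have : star (fourier n : C(UnitAddCircle, ℂ)) = fourier (-n) := by
      ext x
      exact fourier_neg.symm
    rw [this]
    exact fourier_mem_V (by simpa using hn)
  | zero => simp
  | add x y _ _ hx hy => rw [star_add]; exact Submodule.add_mem _ hx hy
  | smul a x _ hx => rw [star_smul]; exact Submodule.smul_mem _ _ hx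

lemma integrable_C (f : C(UnitAddCircle, ℂ)) : Integrable (f : UnitAddCircle → ℂ) haarAddCircle :=
  f.continuous.integrable_of_hasCompactSupport (HasCompactSupport.of_compactSpace _)

lemma coeff_add (f g : C(UnitAddCircle, ℂ)) (n : ℤ) :
    fourierCoeff (f + g : C(UnitAddCircle, ℂ)) n = fourierCoeff f n + fourierCoeff g n := by
  rw [ContinuousMap.coe_add, fourierCoeff.add (integrable_C f) (integrable_C g)]
  rfl

lemma coeff_smul (f : C(UnitAddCircle, ℂ)) (c : ℂ) (n : ℤ) :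
    fourierCoeff (c • f : C(UnitAddCircle, ℂ)) n = c * fourierCoeff f n := by
  rw [ContinuousMap.coe_smul, fourierCoeff.const_smul]
  rfl

lemma coeff_sum {ι : Type*} (s : Finset ι) (f : ι → C(UnitAddCircle, ℂ)) (n : ℤ) :
    fourierCoeff (∑ i ∈ s, f i : C(UnitAddCircle, ℂ)) n = ∑ i ∈ s, fourierCoeff (f i) n := by
  classical
  induction s using Finset.induction_on with
  | empty => simp [fourierCoeff]
  | insert a s ha ih => rw [Finset.sum_insert ha, Finset.sum_insert ha, coeff_add, ih]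

lemma coeff_eq_zero {S : Set ℤ} {f : C(UnitAddCircle, ℂ)} (hf : f ∈ V S) {n : ℤ} (hn : n ∉ S) :
    fourierCoeff f n = 0 := by
  unfold V at hf
  induction hf using Submodule.span_induction with
  | mem x hx =>
    obtain ⟨m, hm, rfl⟩ := hx
    have h := congrFun (fourierCoeff_fourier (T := 1) m) n
    have hne : n ≠ m := fun h => hn (h ▸ hm)
    rw [Pi.single_eq_of_ne hne] at h
    exact h
  | zero => simp [fourierCoeff]
  | add x y _ _ hx hy => rw [coeff_add, hx, hy, add_zero]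
  | smul a x _ hx => rw [coeff_smul, hx, mul_zero]

lemma coeff_mul_fourier (h : C(UnitAddCircle, ℂ)) (m n : ℤ) :
    fourierCoeff (h * fourier m : C(UnitAddCircle, ℂ)) n = fourierCoeff h (n - m) := by
  unfold fourierCoeff
  congr 1
  ext t
  have : (fourier (-(n - m)) t : ℂ) = fourier (-n) t * fourier m t := by
    rw [← fourier_add]; congr 2; ring
  rw [this]
  simp only [ContinuousMap.coe_mul, Pi.mul_apply, smul_eq_mul]
  ring


/-! ### The construction -/

def uu (a N : ℕ) : C(UnitAddCircle, ℂ) :=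
  ((1 : ℂ) / (2 * N)) • ∑ j ∈ Finset.range N, (fourier ((2 : ℤ) ^ (a + j)) : C(UnitAddCircle, ℂ))

def hh (f : C(UnitAddCircle, ℂ)) : C(UnitAddCircle, ℂ) := 1 - f * star f

def ff (a N : ℕ → ℕ) : ℕ → C(UnitAddCircle, ℂ)
  | 0 => 0
  | i + 1 => ff a N i + hh (ff a N i) * uu (a i) (N i)

lemma norm_fourier_apply (n : ℤ) (x : UnitAddCircle) : ‖(fourier n x : ℂ)‖ = 1 :=
  Circle.norm_coe _

lemma uu_apply_le (a N : ℕ) (x : UnitAddCircle) : ‖uu a N x‖ ≤ 1 / 2 := by
  unfold uu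
  rw [ContinuousMap.smul_apply, ContinuousMap.sum_apply, norm_smul]
  have h1 : ‖∑ j ∈ Finset.range N, (fourier ((2 : ℤ) ^ (a + j)) x : ℂ)‖ ≤ N := by
    refine (norm_sum_le _ _).trans ?_
    simp only [norm_fourier_apply]
    simp
  rcases Nat.eq_zero_or_pos N with h | h
  · subst h; simp
  · have hN : (0 : ℝ) < N := by exact_mod_cast h
    have h2 : ‖((1 : ℂ) / (2 * N))‖ = 1 / (2 * N) := by
      rw [norm_div, norm_mul]; simp
    rw [h2]
    calc 1 / (2 * (N : ℝ)) * ‖∑ j ∈ Finset.range N, (fourier ((2 : ℤ) ^ (a + j)) x : ℂ)‖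
        ≤ 1 / (2 * (N : ℝ)) * N := by gcongr
      _ = 1 / 2 := by field_simp

lemma hh_apply (f : C(UnitAddCircle, ℂ)) (x : UnitAddCircle) :
    hh f x = ((1 - ‖f x‖ ^ 2 : ℝ) : ℂ) := by
  unfold hh
  simp only [ContinuousMap.sub_apply, ContinuousMap.one_apply, ContinuousMap.mul_apply,
    ContinuousMap.star_apply]
  have : f x * star (f x) = ((‖f x‖ ^ 2 : ℝ) : ℂ) := by
    rw [← Complex.normSq_eq_norm_sq]
    exact Complex.mul_conj (f x)
  rw [this]; push_cast; ring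

lemma ff_apply_le (a N : ℕ → ℕ) (i : ℕ) (x : UnitAddCircle) : ‖ff a N i x‖ ≤ 1 := by
  induction i with
  | zero => simp [ff]
  | succ i ih =>
    simp only [ff, ContinuousMap.add_apply, ContinuousMap.mul_apply]
    refine (norm_add_le _ _).trans ?_
    rw [norm_mul, hh_apply, Complex.norm_real, Real.norm_eq_abs]
    have h0 := norm_nonneg (ff a N i x)
    rw [abs_of_nonneg (by nlinarith)]
    have h1 := uu_apply_le (a i) (N i) x
    have h2 : (1 - ‖ff a N i x‖ ^ 2) * ‖uu (a i) (N i) x‖ ≤ (1 - ‖ff a N i x‖ ^ 2) * (1 / 2) :=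
      mul_le_mul_of_nonneg_left h1 (by nlinarith)
    nlinarith

def MM (a N : ℕ → ℕ) : ℕ → ℤ
  | 0 => 0
  | i + 1 => 2 ^ (a i + N i)

lemma MM_succ (a N : ℕ → ℕ) (i : ℕ) : MM a N (i + 1) = 2 ^ (a i + N i) := rfl

def SS (a N : ℕ) (M : ℤ) : Set ℤ := {n | ∃ j < N, |n - 2 ^ (a + j)| ≤ M}

lemma hh_mem {f : C(UnitAddCircle, ℂ)} {M : ℤ} (hM : 0 ≤ M) (hf : f ∈ V (Set.Icc 0 M)) :
    hh f ∈ V (Set.Icc (-M) M) := by
  unfold hh
  refine Submodule.sub_mem _ ?_ ?_
  · have : (1 : C(UnitAddCircle, ℂ)) = fourier 0 := by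
      ext x; exact fourier_zero.symm
    rw [this]
    exact fourier_mem_V (by simp [hM])
  · refine V_mono ?_ (mul_mem_V hf (star_mem_V hf))
    rintro _ ⟨m, hm, n, hn, rfl⟩
    simp only [Set.mem_neg, Set.mem_Icc] at hm hn ⊢
    constructor <;> omega

lemma uu_mem (a N : ℕ) : uu a N ∈ V {n : ℤ | ∃ j < N, n = 2 ^ (a + j)} := by
  unfold uu
  refine Submodule.smul_mem _ _ (Submodule.sum_mem _ fun j hj => fourier_mem_V ?_)
  exact ⟨j, Finset.mem_range.1 hj, rfl⟩

lemma hu_mem {f : C(UnitAddCircle, ℂ)} {M : ℤ} (hM : 0 ≤ M) (hf : f ∈ V (Set.Icc 0 M))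
    (a N : ℕ) : hh f * uu a N ∈ V (SS a N M) := by
  refine V_mono ?_ (mul_mem_V (hh_mem hM hf) (uu_mem a N))
  rintro _ ⟨m, hm, _, ⟨j, hj, rfl⟩, rfl⟩
  refine ⟨j, hj, ?_⟩
  rw [Set.mem_Icc] at hm
  rw [abs_le]
  constructor <;> dsimp <;> linarith [hm.1, hm.2]

lemma MM_nonneg (a N : ℕ → ℕ) (i : ℕ) : 0 ≤ MM a N i := by
  cases i <;> simp [MM]

lemma MM_lt {a N : ℕ → ℕ} (hgap : ∀ i, a i + N i + 2 ≤ a (i + 1)) (i : ℕ) :
    2 * MM a N i < 2 ^ (a i) := by
  cases i with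
  | zero => simp [MM]
  | succ i =>
    rw [MM_succ]
    have : (2 : ℤ) ^ (a i + N i + 2) ≤ 2 ^ (a (i + 1)) := pow_le_pow_right₀ (by norm_num) (hgap i)
    have h2 : (2 : ℤ) ^ (a i + N i + 2) = 4 * 2 ^ (a i + N i) := by ring
    have h3 : (0 : ℤ) < 2 ^ (a i + N i) := by positivity
    linarith

lemma SS_subset {a N : ℕ} {M : ℤ} (hM : 2 * M < 2 ^ a) :
    SS a N M ⊆ Set.Icc (2 ^ a - M) (2 ^ (a + N)) := by
  rintro n ⟨j, hj, hn⟩
  rw [abs_le] at hn
  have h1 : (2 : ℤ) ^ a ≤ 2 ^ (a + j) := pow_le_pow_right₀ (by norm_num) (by omega)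
  have h2 : (2 : ℤ) ^ (a + j + 1) ≤ 2 ^ (a + N) := pow_le_pow_right₀ (by norm_num) (by omega)
  have h3 : (2 : ℤ) ^ (a + j + 1) = 2 * 2 ^ (a + j) := by ring
  constructor <;> linarith [hn.1, hn.2]

lemma ff_mem {a N : ℕ → ℕ} (hgap : ∀ i, a i + N i + 2 ≤ a (i + 1)) (i : ℕ) :
    ff a N i ∈ V (Set.Icc 0 (MM a N i)) := by
  induction i with
  | zero => simp [ff]
  | succ i ih =>
    have hM := MM_lt hgap i
    have hM0 := MM_nonneg a N i
    have h4 : (2 : ℤ) ^ a i ≤ 2 ^ (a i + N i) := pow_le_pow_right₀ (by norm_num) (by omega)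
    simp only [ff]
    refine Submodule.add_mem _ ?_ ?_
    · refine V_mono ?_ ih
      rw [MM_succ]
      exact Set.Icc_subset_Icc le_rfl (by linarith)
    · refine V_mono ?_ (hu_mem hM0 ih (a i) (N i))
      refine (SS_subset hM).trans ?_
      rw [MM_succ]
      exact Set.Icc_subset_Icc (by linarith) le_rfl

lemma coeff_hu {f : C(UnitAddCircle, ℂ)} {M : ℤ} {a N : ℕ} (hM0 : 0 ≤ M) (hM : 2 * M < 2 ^ a)
    (hf : f ∈ V (Set.Icc 0 M)) {j : ℕ} (hj : j < N) :
    fourierCoeff (hh f * uu a N : C(UnitAddCircle, ℂ)) (2 ^ (a + j)) =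
      (1 : ℂ) / (2 * N) * fourierCoeff (hh f) 0 := by
  have h1 : hh f * uu a N = ((1 : ℂ) / (2 * N)) • ∑ i ∈ Finset.range N,
      (hh f * fourier ((2 : ℤ) ^ (a + i)) : C(UnitAddCircle, ℂ)) := by
    unfold uu
    rw [mul_smul_comm, Finset.mul_sum]
  rw [h1, coeff_smul, coeff_sum]
  congr 1
  rw [Finset.sum_eq_single j]
  · rw [coeff_mul_fourier, sub_self]
  · intro i _ hij
    rw [coeff_mul_fourier]
    refine coeff_eq_zero (hh_mem hM0 hf) ?_
    rw [Set.mem_Icc, not_and_or, not_le, not_le]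
    rcases lt_or_gt_of_ne hij with h | h
    · right
      have h2 : (2 : ℤ) ^ (a + i + 1) ≤ 2 ^ (a + j) := pow_le_pow_right₀ (by norm_num) (by omega)
      have h3 : (2 : ℤ) ^ (a + i + 1) = 2 * 2 ^ (a + i) := by ring
      have h4 : (2 : ℤ) ^ a ≤ 2 ^ (a + i) := pow_le_pow_right₀ (by norm_num) (by omega)
      linarith
    · left
      have h2 : (2 : ℤ) ^ (a + j + 1) ≤ 2 ^ (a + i) := pow_le_pow_right₀ (by norm_num) (by omega)
      have h3 : (2 : ℤ) ^ (a + j + 1) = 2 * 2 ^ (a + j) := by ring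
      have h4 : (2 : ℤ) ^ a ≤ 2 ^ (a + j) := pow_le_pow_right₀ (by norm_num) (by omega)
      linarith
  · intro h
    exact absurd (Finset.mem_range.2 hj) h

lemma MM_mono {a N : ℕ → ℕ} (hgap : ∀ i, a i + N i + 2 ≤ a (i + 1)) : Monotone (MM a N) := by
  refine monotone_nat_of_le_succ fun i => ?_
  have h1 := MM_lt hgap i
  have h2 := MM_nonneg a N i
  have h4 : (2 : ℤ) ^ a i ≤ 2 ^ (a i + N i) := pow_le_pow_right₀ (by norm_num) (by omega)
  rw [MM_succ]
  linarith

lemma coeff_ff {a N : ℕ → ℕ} (hgap : ∀ i, a i + N i + 2 ≤ a (i + 1)) (I : ℕ) :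
    ∀ i < I, ∀ j < N i, fourierCoeff (ff a N I) (2 ^ (a i + j)) =
      (1 : ℂ) / (2 * N i) * fourierCoeff (hh (ff a N i)) 0 := by
  induction I with
  | zero => intro i hi; omega
  | succ I ih =>
    intro i hi j hj
    simp only [ff]
    rw [coeff_add]
    rcases Nat.lt_succ_iff_lt_or_eq.1 hi with h | h
    · rw [ih i h j hj]
      rw [coeff_eq_zero (hu_mem (MM_nonneg a N I) (ff_mem hgap I) (a I) (N I)), add_zero]
      intro hmem
      have h1 := (SS_subset (MM_lt hgap I) hmem).1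
      have h2 := MM_lt hgap I
      have h3 : MM a N (i + 1) ≤ MM a N I := MM_mono hgap h
      rw [MM_succ] at h3
      have h4 : (2 : ℤ) ^ (a i + j) ≤ 2 ^ (a i + N i) :=
        pow_le_pow_right₀ (by norm_num) (by omega)
      linarith
    · subst h
      rw [coeff_hu (MM_nonneg a N i) (MM_lt hgap i) (ff_mem hgap i) hj]
      rw [coeff_eq_zero (ff_mem hgap i), zero_add]
      intro hmem
      have h1 := hmem.2
      have h2 := MM_lt hgap i
      have h3 := MM_nonneg a N i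
      have h4 : (2 : ℤ) ^ (a i) ≤ 2 ^ (a i + j) := pow_le_pow_right₀ (by norm_num) (by omega)
      linarith

lemma ff_spec {a N : ℕ → ℕ} (hgap : ∀ i, a i + N i + 2 ≤ a (i + 1)) {S : Set ℤ}
    (hS : ∀ i, SS (a i) (N i) (MM a N i) ⊆ S) (I : ℕ) : ff a N I ∈ V S := by
  induction I with
  | zero => simp [ff]
  | succ I ih =>
    simp only [ff]
    exact Submodule.add_mem _ ih
      (V_mono (hS I) (hu_mem (MM_nonneg a N I) (ff_mem hgap I) (a I) (N I)))


/-! ### Integral estimates -/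

lemma integrable_norm (f : C(UnitAddCircle, ℂ)) :
    Integrable (fun x => ‖f x‖) (haarAddCircle : Measure UnitAddCircle) :=
  (integrable_C f).norm

lemma integrable_norm_sq (f : C(UnitAddCircle, ℂ)) :
    Integrable (fun x => ‖f x‖ ^ 2) (haarAddCircle : Measure UnitAddCircle) :=
  (f.continuous.norm.pow 2).integrable_of_hasCompactSupport (HasCompactSupport.of_compactSpace _)

lemma coeff_fourier (m n : ℤ) :
    fourierCoeff (fourier m : C(UnitAddCircle, ℂ)) n = if n = m then 1 else 0 := by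
  have h := congrFun (fourierCoeff_fourier (T := 1) m) n
  rw [Pi.single_apply] at h
  exact h

lemma coeff_mul_star_zero (f : C(UnitAddCircle, ℂ)) :
    fourierCoeff (f * star f : C(UnitAddCircle, ℂ)) 0 =
      ((∫ x : UnitAddCircle, ‖f x‖ ^ 2 ∂haarAddCircle : ℝ) : ℂ) := by
  unfold fourierCoeff
  rw [← integral_complex_ofReal]
  congr 1
  ext x
  have : f x * star (f x) = ((‖f x‖ ^ 2 : ℝ) : ℂ) := by
    rw [← Complex.normSq_eq_norm_sq]
    exact Complex.mul_conj (f x)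
  simp only [neg_zero, fourier_zero, ContinuousMap.coe_mul, Pi.mul_apply, ContinuousMap.star_apply,
    one_smul]
  exact this

lemma star_uu (a N : ℕ) : star (uu a N) = ((1 : ℂ) / (2 * N)) •
    ∑ j ∈ Finset.range N, (fourier (-(2 : ℤ) ^ (a + j)) : C(UnitAddCircle, ℂ)) := by
  unfold uu
  rw [star_smul, star_sum]
  congr 1
  · simp
  · refine Finset.sum_congr rfl fun j _ => ?_
    ext x
    exact fourier_neg.symm

lemma pow_inj (a i j : ℕ) : (2 : ℤ) ^ (a + i) = 2 ^ (a + j) ↔ i = j := by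
  constructor
  · intro h
    have := Int.pow_right_injective (by norm_num : 1 < (2 : ℤ).natAbs) h
    omega
  · rintro rfl; rfl

lemma integral_uu_sq (a N : ℕ) (hN : 0 < N) :
    ∫ x : UnitAddCircle, ‖uu a N x‖ ^ 2 ∂haarAddCircle = 1 / (4 * N) := by
  have h0 : (N : ℂ) ≠ 0 := by exact_mod_cast hN.ne'
  have h := coeff_mul_star_zero (uu a N)
  have h1 : uu a N * star (uu a N) = ((1 : ℂ) / (2 * N)) • ∑ i ∈ Finset.range N,
      (star (uu a N) * fourier ((2 : ℤ) ^ (a + i)) : C(UnitAddCircle, ℂ)) := by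
    conv_lhs => rw [mul_comm]
    conv_lhs => rw [show uu a N = ((1 : ℂ) / (2 * N)) • ∑ j ∈ Finset.range N,
      (fourier ((2 : ℤ) ^ (a + j)) : C(UnitAddCircle, ℂ)) from rfl]
    rw [mul_smul_comm, Finset.mul_sum]
    rfl
  rw [h1, coeff_smul, coeff_sum] at h
  have h2 : ∀ i ∈ Finset.range N,
      fourierCoeff (star (uu a N) * fourier ((2 : ℤ) ^ (a + i)) : C(UnitAddCircle, ℂ)) 0 =
        1 / (2 * N) := by
    intro i hi
    rw [coeff_mul_fourier, star_uu, coeff_smul, coeff_sum]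
    rw [Finset.sum_eq_single i]
    · rw [coeff_fourier]; simp
    · intro j _ hji
      rw [coeff_fourier, if_neg]
      intro hh
      apply hji
      rw [← pow_inj a]
      linarith
    · intro hh; exact absurd hi hh
  rw [Finset.sum_congr rfl h2] at h
  simp only [Finset.sum_const, Finset.card_range, nsmul_eq_mul] at h
  have h3 : ((1 / (4 * N) : ℝ) : ℂ) = 1 / (2 * N) * (N * (1 / (2 * N))) := by
    push_cast
    field_simp
    norm_num
  rw [← h3] at h
  exact_mod_cast h.symm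

lemma integral_uu (a i : ℕ) :
    ∫ x : UnitAddCircle, ‖uu a (4 ^ (i + 1)) x‖ ∂haarAddCircle ≤ (1 / 2) ^ (i + 2) := by
  have h1 : ∀ x : UnitAddCircle, ‖uu a (4 ^ (i + 1)) x‖ ≤
      2 ^ (i + 1) * ‖uu a (4 ^ (i + 1)) x‖ ^ 2 + (1 / 2) ^ (i + 3) := by
    intro x
    set t := ‖uu a (4 ^ (i + 1)) x‖
    have h2 : (0 : ℝ) ≤ 2 ^ (i + 1) * (t - (1 / 2) ^ (i + 2)) ^ 2 := by positivity
    have h3 : (2 : ℝ) ^ (i + 1) * (1 / 2) ^ (i + 2) = 1 / 2 := by
      rw [one_div, inv_pow]; field_simp; ring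
    have h4 : ((1 : ℝ) / 2) ^ (i + 3) = (1 / 2) ^ (i + 2) * (1 / 2) := by ring
    have h5 : (2 : ℝ) ^ (i + 1) * (t - (1 / 2) ^ (i + 2)) ^ 2 =
        2 ^ (i + 1) * t ^ 2 - 2 * t * (2 ^ (i + 1) * (1 / 2) ^ (i + 2))
          + (2 ^ (i + 1) * (1 / 2) ^ (i + 2)) * (1 / 2) ^ (i + 2) := by ring
    rw [h5, h3] at h2
    rw [h4]
    linarith
  calc ∫ x : UnitAddCircle, ‖uu a (4 ^ (i + 1)) x‖ ∂haarAddCircle
      ≤ ∫ x : UnitAddCircle, (2 ^ (i + 1) * ‖uu a (4 ^ (i + 1)) x‖ ^ 2 + (1 / 2) ^ (i + 3))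
          ∂haarAddCircle := by
        refine integral_mono (integrable_norm _) ?_ h1
        exact ((integrable_norm_sq _).const_mul _).add (integrable_const _)
    _ = 2 ^ (i + 1) * (1 / (4 * (4 ^ (i + 1) : ℕ))) + (1 / 2) ^ (i + 3) := by
        rw [integral_add ((integrable_norm_sq _).const_mul _) (integrable_const _),
          integral_const_mul, integral_uu_sq _ _ (by positivity)]
        simp
    _ = (1 / 2) ^ (i + 2) := by
        have h6 : ((4 ^ (i + 1) : ℕ) : ℝ) = 2 ^ (i + 1) * 2 ^ (i + 1) := by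
          push_cast
          rw [← mul_pow]; norm_num
        rw [h6, one_div_pow, one_div_pow]
        field_simp
        ring

lemma integral_ff (a : ℕ → ℕ) (I : ℕ) :
    ∫ x : UnitAddCircle, ‖ff a (fun i => 4 ^ (i + 1)) I x‖ ∂haarAddCircle ≤
      1 / 2 - (1 / 2) ^ (I + 1) := by
  induction I with
  | zero => simp [ff]
  | succ I ih =>
    have h1 : ∀ x : UnitAddCircle, ‖ff a (fun i => 4 ^ (i + 1)) (I + 1) x‖ ≤
        ‖ff a (fun i => 4 ^ (i + 1)) I x‖ + ‖uu (a I) (4 ^ (I + 1)) x‖ := by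
      intro x
      simp only [ff, ContinuousMap.add_apply, ContinuousMap.mul_apply]
      refine (norm_add_le _ _).trans ?_
      rw [norm_mul, hh_apply, Complex.norm_real, Real.norm_eq_abs]
      have h0 := norm_nonneg (ff a (fun i => 4 ^ (i + 1)) I x)
      have h00 := ff_apply_le a (fun i => 4 ^ (i + 1)) I x
      rw [abs_of_nonneg (by nlinarith)]
      have h2 : (1 - ‖ff a (fun i => 4 ^ (i + 1)) I x‖ ^ 2) * ‖uu (a I) (4 ^ (I + 1)) x‖
          ≤ 1 * ‖uu (a I) (4 ^ (I + 1)) x‖ :=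
        mul_le_mul_of_nonneg_right (by nlinarith) (norm_nonneg _)
      linarith
    calc _ ≤ ∫ x : UnitAddCircle, (‖ff a (fun i => 4 ^ (i + 1)) I x‖ +
          ‖uu (a I) (4 ^ (I + 1)) x‖) ∂haarAddCircle :=
          integral_mono (integrable_norm _) ((integrable_norm _).add (integrable_norm _)) h1
      _ ≤ (1 / 2 - (1 / 2) ^ (I + 1)) + (1 / 2) ^ (I + 2) := by
          rw [integral_add (integrable_norm _) (integrable_norm _)]
          exact add_le_add ih (integral_uu _ _)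
      _ = _ := by ring

lemma hh_coeff_zero (f : C(UnitAddCircle, ℂ)) (h1 : ∀ x, ‖f x‖ ≤ 1)
    (h2 : ∫ x : UnitAddCircle, ‖f x‖ ∂haarAddCircle ≤ 1 / 2) :
    1 / 2 ≤ ‖fourierCoeff (hh f) 0‖ := by
  have h3 : fourierCoeff (hh f) 0 =
      ((1 - ∫ x : UnitAddCircle, ‖f x‖ ^ 2 ∂haarAddCircle : ℝ) : ℂ) := by
    have : hh f = 1 + (-1 : ℂ) • (f * star f) := by
      ext x
      simp [hh, sub_eq_add_neg]
    rw [this, coeff_add, coeff_smul, coeff_mul_star_zero]
    have h4 : fourierCoeff (1 : C(UnitAddCircle, ℂ)) 0 = 1 := by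
      have : (1 : C(UnitAddCircle, ℂ)) = fourier 0 := by
        ext x; exact fourier_zero.symm
      rw [this, coeff_fourier]; simp
    rw [h4]; push_cast; ring
  have h5 : ∫ x : UnitAddCircle, ‖f x‖ ^ 2 ∂haarAddCircle ≤
      ∫ x : UnitAddCircle, ‖f x‖ ∂haarAddCircle := by
    refine integral_mono (integrable_norm_sq _) (integrable_norm _) fun x => ?_
    have := h1 x
    have := norm_nonneg (f x)
    simp only
    nlinarith
  rw [h3, Complex.norm_real, Real.norm_eq_abs]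
  refine le_trans ?_ (le_abs_self _)
  linarith


/-! ### The indices `lam` -/

lemma lam_nonempty {r : ℕ → ℝ} (hr : Admissible r) (s : ℕ) :
    {m : ℕ | (2 : ℝ) ^ lam r s ≤ r m}.Nonempty := by
  obtain ⟨m, hm⟩ := (hr.2.2.eventually_ge_atTop ((2 : ℝ) ^ lam r s)).exists
  exact ⟨m, hm⟩

lemma lam_mem {r : ℕ → ℝ} (hr : Admissible r) (s : ℕ) :
    (2 : ℝ) ^ lam r s ≤ r (lam r (s + 1)) :=
  Nat.sInf_mem (lam_nonempty hr s)

lemma lam_add {r : ℕ → ℝ} (hr : Admissible r) (s : ℕ) : lam r s + 11 ≤ lam r (s + 1) := by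
  have h1 := lam_mem hr s
  have h2 := (hr.2.1 (lam r (s + 1))).2
  have h3 : (2 : ℝ) ^ ((lam r s : ℤ)) < 2 ^ ((lam r (s + 1) : ℤ) - 10) := by
    rw [zpow_natCast]; linarith
  have h4 := (zpow_lt_zpow_iff_right₀ (by norm_num : (1 : ℝ) < 2)).1 h3
  omega

lemma lam_strictMono {r : ℕ → ℝ} (hr : Admissible r) : StrictMono (lam r) :=
  strictMono_nat_of_lt_succ fun s => by have := lam_add hr s; omega

lemma exists_large {r : ℕ → ℝ} (h : ∀ M : ℕ, ∃ s, M < lam r (s + 1) - lam r s) (M s₀ : ℕ) :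
    ∃ s, s₀ ≤ s ∧ M < lam r (s + 1) - lam r s := by
  obtain ⟨s, hs⟩ := h (M + ∑ t ∈ Finset.range s₀, (lam r (t + 1) - lam r t))
  refine ⟨s, ?_, by omega⟩
  by_contra hlt
  have h1 : lam r (s + 1) - lam r s ≤ ∑ t ∈ Finset.range s₀, (lam r (t + 1) - lam r t) :=
    Finset.single_le_sum (f := fun t => lam r (t + 1) - lam r t) (fun _ _ => Nat.zero_le _)
      (Finset.mem_range.2 (not_le.1 hlt))
  omega

/-- indices of long blocks -/
lemma exists_blocks {r : ℕ → ℝ} (h : ∀ M : ℕ, ∃ s, M < lam r (s + 1) - lam r s) :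
    ∃ σ : ℕ → ℕ, (∀ i, σ i + 2 ≤ σ (i + 1)) ∧
      ∀ i, 4 ^ (i + 1) < lam r (σ i + 1) - lam r (σ i) := by
  choose g hg1 hg2 using exists_large h
  refine ⟨fun i => Nat.rec (g 4 0) (fun i p => g (4 ^ (i + 2)) (p + 2)) i, fun i => ?_, fun i => ?_⟩
  · exact hg1 _ _
  · cases i with
    | zero => exact hg2 _ _
    | succ i => exact hg2 _ _

lemma not_blockBound {r : ℕ → ℝ} (hr : Admissible r)
    (h : ∀ M : ℕ, ∃ s, M < lam r (s + 1) - lam r s) : ¬ BlockBound r := by
  rintro ⟨C, hC⟩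
  obtain ⟨σ, hσ1, hσ2⟩ := exists_blocks h
  set a : ℕ → ℕ := fun i => lam r (σ i) with ha
  set N : ℕ → ℕ := fun i => 4 ^ (i + 1) with hN
  have hlm := (lam_strictMono hr).monotone
  have hσm : StrictMono σ := strictMono_nat_of_lt_succ fun i => by have := hσ1 i; omega
  have hblock : ∀ i, a i + N i ≤ lam r (σ i + 1) := by
    intro i
    have h1 := hσ2 i
    simp only [ha, hN]
    generalize 4 ^ (i + 1) = q at h1 ⊢
    omega
  have hgap : ∀ i, a i + N i + 2 ≤ a (i + 1) := by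
    intro i
    have h1 := hblock i
    have h2 := lam_add hr (σ i + 1)
    have h3 : lam r (σ i + 1 + 1) ≤ lam r (σ (i + 1)) := hlm (hσ1 i)
    simp only [ha] at *
    omega
  have hS : ∀ i, SS (a i) (N i) (MM a N i) ⊆ specSet r := by
    rintro i n ⟨j, _, hn⟩
    have hM : ((MM a N i : ℤ) : ℝ) ≤ r (a i + j) := by
      cases i with
      | zero =>
        have : MM a N 0 = 0 := rfl
        rw [this]
        simpa using (hr.2.1 (a 0 + j)).1.le
      | succ i =>
        rw [MM_succ]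
        push_cast
        have h1 : (2 : ℝ) ^ (a i + N i) ≤ 2 ^ (lam r (σ i + 1)) :=
          pow_le_pow_right₀ (by norm_num) (hblock i)
        have h2 := lam_mem hr (σ i + 1)
        have h3 : r (lam r (σ i + 1 + 1)) ≤ r (a (i + 1) + j) := by
          refine hr.1 ?_
          have h4 : lam r (σ i + 1 + 1) ≤ lam r (σ (i + 1)) := hlm (hσ1 i)
          simp only [ha]
          omega
        linarith
    refine ⟨a i + j, ?_⟩
    have h1 : |((n : ℝ) - 2 ^ (a i + j))| ≤ MM a N i := by exact_mod_cast hn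
    rw [abs_le] at h1
    constructor <;> linarith [h1.1, h1.2]
  -- the polynomial
  obtain ⟨I, hI⟩ := exists_nat_gt (16 * max C 0)
  set f := ff a N I with hf
  have hfmem : f ∈ V (specSet r) := ff_spec hgap hS I
  have hfnorm : ‖f‖ ≤ 1 := (ContinuousMap.norm_le _ zero_le_one).2 (ff_apply_le a N I)
  have hPhi := hC f (fun n hn => coeff_eq_zero hfmem hn)
  have hupper : ENNReal.ofReal (C * ‖f‖ ^ 2) ≤ ENNReal.ofReal (max C 0) := by
    apply ENNReal.ofReal_le_ofReal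
    have h0 := norm_nonneg f
    have h1 : C * ‖f‖ ^ 2 ≤ max C 0 * ‖f‖ ^ 2 :=
      mul_le_mul_of_nonneg_right (le_max_left _ _) (by positivity)
    have h2 : max C 0 * ‖f‖ ^ 2 ≤ max C 0 * 1 :=
      mul_le_mul_of_nonneg_left (by nlinarith) (le_max_right _ _)
    linarith
  have hcoef : ∀ i < I, ∀ j < N i,
      ENNReal.ofReal (1 / (4 * N i)) ≤ ‖fourierCoeff f (2 ^ (a i + j))‖ₑ := by
    intro i hi j hj
    rw [hf, coeff_ff hgap I i hi j hj, ← ofReal_norm, norm_mul]
    apply ENNReal.ofReal_le_ofReal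
    have h1 : 1 / 2 ≤ ‖fourierCoeff (hh (ff a N i)) 0‖ := by
      refine hh_coeff_zero _ (ff_apply_le a N i) ?_
      refine (integral_ff a i).trans ?_
      have : (0 : ℝ) ≤ (1 / 2) ^ (i + 1) := by positivity
      linarith
    have h2 : ‖(1 : ℂ) / (2 * (N i : ℕ))‖ = 1 / (2 * (N i : ℝ)) := by
      rw [norm_div, norm_mul]; simp
    rw [h2]
    have h3 : (0 : ℝ) < N i := by simp only [hN]; positivity
    calc (1 : ℝ) / (4 * N i) = 1 / (2 * N i) * (1 / 2) := by field_simp; norm_num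
      _ ≤ 1 / (2 * N i) * ‖fourierCoeff (hh (ff a N i)) 0‖ := by gcongr
  have hsum : ∀ i < I, ENNReal.ofReal (1 / 4) ≤
      ∑ k ∈ Finset.Ico (lam r (σ i)) (lam r (σ i + 1)), ‖fourierCoeff f ((2 : ℤ) ^ k)‖ₑ := by
    intro i hi
    calc ENNReal.ofReal (1 / 4) = ∑ _j ∈ Finset.range (N i), ENNReal.ofReal (1 / (4 * N i)) := by
          rw [Finset.sum_const, Finset.card_range, nsmul_eq_mul]
          rw [← ENNReal.ofReal_natCast, ← ENNReal.ofReal_mul (by positivity)]
          congr 1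
          have h3 : (0 : ℝ) < N i := by simp only [hN]; positivity
          field_simp
      _ ≤ ∑ j ∈ Finset.range (N i), ‖fourierCoeff f ((2 : ℤ) ^ (a i + j))‖ₑ :=
          Finset.sum_le_sum fun j hj => hcoef i hi j (Finset.mem_range.1 hj)
      _ = ∑ k ∈ Finset.Ico (a i) (a i + N i), ‖fourierCoeff f ((2 : ℤ) ^ k)‖ₑ := by
          rw [Finset.sum_Ico_eq_sum_range]
          simp
      _ ≤ _ := Finset.sum_le_sum_of_subset (Finset.Ico_subset_Ico le_rfl (hblock i))
  have hlower : (I : ℝ≥0∞) * ENNReal.ofReal (1 / 16) ≤ Phi r f := by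
    unfold Phi
    calc (I : ℝ≥0∞) * ENNReal.ofReal (1 / 16)
        = ∑ _i ∈ Finset.range I, ENNReal.ofReal (1 / 16) := by
          rw [Finset.sum_const, Finset.card_range, nsmul_eq_mul]
      _ ≤ ∑ i ∈ Finset.range I, (∑ k ∈ Finset.Ico (lam r (σ i)) (lam r (σ i + 1)),
            ‖fourierCoeff f ((2 : ℤ) ^ k)‖ₑ) ^ 2 := by
          refine Finset.sum_le_sum fun i hi => ?_
          calc ENNReal.ofReal (1 / 16) = (ENNReal.ofReal (1 / 4)) ^ 2 := by
                rw [← ENNReal.ofReal_pow (by norm_num)]; norm_num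
            _ ≤ _ := pow_le_pow_left' (hsum i (Finset.mem_range.1 hi)) 2
      _ = ∑ s ∈ (Finset.range I).map ⟨σ, hσm.injective⟩,
            (∑ k ∈ Finset.Ico (lam r s) (lam r (s + 1)), ‖fourierCoeff f ((2 : ℤ) ^ k)‖ₑ) ^ 2 := by
          rw [Finset.sum_map]; rfl
      _ ≤ _ := ENNReal.sum_le_tsum _
  have hfin := (hlower.trans hPhi).trans hupper
  rw [← ENNReal.ofReal_natCast, ← ENNReal.ofReal_mul (by positivity),
    ENNReal.ofReal_le_ofReal_iff (le_max_right _ _)] at hfin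
  linarith

/-! ### Bounded block lengths -/

lemma tsum_coeff_le (f : C(UnitAddCircle, ℂ)) :
    ∑' n : ℤ, ENNReal.ofReal (‖fourierCoeff f n‖ ^ 2) ≤ ENNReal.ofReal (‖f‖ ^ 2) := by
  have h := hasSum_sq_fourierCoeff (ContinuousMap.toLp (E := ℂ) 2 haarAddCircle ℂ f)
  simp_rw [fourierCoeff_toLp] at h
  rw [← ENNReal.ofReal_tsum_of_nonneg (fun _ => by positivity) h.summable, h.tsum_eq]
  apply ENNReal.ofReal_le_ofReal
  have h1 : ∫ t : UnitAddCircle,
      ‖(ContinuousMap.toLp (E := ℂ) 2 haarAddCircle ℂ f : UnitAddCircle → ℂ) t‖ ^ 2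
        ∂haarAddCircle = ∫ t : UnitAddCircle, ‖f t‖ ^ 2 ∂haarAddCircle := by
    refine integral_congr_ae ?_
    filter_upwards [ContinuousMap.coeFn_toLp (p := 2) (𝕜 := ℂ) haarAddCircle f] with t ht
    rw [ht]
  rw [h1]
  calc ∫ t : UnitAddCircle, ‖f t‖ ^ 2 ∂haarAddCircle
      ≤ ∫ _t : UnitAddCircle, ‖f‖ ^ 2 ∂haarAddCircle := by
        refine integral_mono (integrable_norm_sq _) (integrable_const _) fun x => ?_
        have := f.norm_coe_le_norm x
        have := norm_nonneg (f x)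
        simp only
        nlinarith
    _ = ‖f‖ ^ 2 := by simp

lemma blockBound_of_bounded {r : ℕ → ℝ} (hr : Admissible r)
    (h : ∃ M : ℕ, ∀ s, lam r (s + 1) - lam r s ≤ M) : BlockBound r := by
  obtain ⟨M, hM⟩ := h
  refine ⟨M, fun f _ => ?_⟩
  set y : ℕ → ℝ := fun k => ‖fourierCoeff f ((2 : ℤ) ^ k)‖ with hy
  have hterm : ∀ s, (∑ k ∈ Finset.Ico (lam r s) (lam r (s + 1)),
      ‖fourierCoeff f ((2 : ℤ) ^ k)‖ₑ) ^ 2 ≤
      ENNReal.ofReal M * ∑ k ∈ Finset.Ico (lam r s) (lam r (s + 1)), ENNReal.ofReal (y k ^ 2) := by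
    intro s
    simp_rw [← ofReal_norm]
    rw [← ENNReal.ofReal_sum_of_nonneg (fun _ _ => norm_nonneg _),
      ← ENNReal.ofReal_pow (Finset.sum_nonneg fun _ _ => norm_nonneg _),
      ← ENNReal.ofReal_sum_of_nonneg (fun _ _ => by positivity),
      ← ENNReal.ofReal_mul (by positivity)]
    apply ENNReal.ofReal_le_ofReal
    have h1 := sq_sum_le_card_mul_sum_sq (s := Finset.Ico (lam r s) (lam r (s + 1))) (f := y)
    refine h1.trans ?_
    have h2 : ((Finset.Ico (lam r s) (lam r (s + 1))).card : ℝ) ≤ M := by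
      rw [Nat.card_Ico]; exact_mod_cast hM s
    exact mul_le_mul_of_nonneg_right h2 (Finset.sum_nonneg fun _ _ => by positivity)
  have hlm := (lam_strictMono hr).monotone
  have hcons : ∀ S, ∑ s ∈ Finset.range S, ∑ k ∈ Finset.Ico (lam r s) (lam r (s + 1)),
      ENNReal.ofReal (y k ^ 2) = ∑ k ∈ Finset.Ico 0 (lam r S), ENNReal.ofReal (y k ^ 2) := by
    intro S
    induction S with
    | zero => simp [lam]
    | succ S ih =>
      rw [Finset.sum_range_succ, ih, Finset.sum_Ico_consecutive _ (Nat.zero_le _)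
        (hlm (Nat.le_succ S))]
  have h1 : ∑' s : ℕ, ∑ k ∈ Finset.Ico (lam r s) (lam r (s + 1)), ENNReal.ofReal (y k ^ 2) ≤
      ∑' k : ℕ, ENNReal.ofReal (y k ^ 2) := by
    refine ENNReal.tsum_le_of_sum_range_le fun S => ?_
    rw [hcons S]
    exact ENNReal.sum_le_tsum _
  have hinj : Function.Injective (fun k : ℕ => (2 : ℤ) ^ k) :=
    Int.pow_right_injective (by norm_num)
  have h2 : ∑' k : ℕ, ENNReal.ofReal (y k ^ 2) ≤
      ∑' n : ℤ, ENNReal.ofReal (‖fourierCoeff f n‖ ^ 2) :=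
    ENNReal.tsum_comp_le_tsum_of_injective hinj
      (fun n => ENNReal.ofReal (‖fourierCoeff f n‖ ^ 2))
  calc Phi r f ≤ ∑' s : ℕ, ENNReal.ofReal M *
        ∑ k ∈ Finset.Ico (lam r s) (lam r (s + 1)), ENNReal.ofReal (y k ^ 2) :=
        ENNReal.tsum_le_tsum hterm
    _ = ENNReal.ofReal M * ∑' s : ℕ,
        ∑ k ∈ Finset.Ico (lam r s) (lam r (s + 1)), ENNReal.ofReal (y k ^ 2) :=
        ENNReal.tsum_mul_left
    _ ≤ ENNReal.ofReal M * ENNReal.ofReal (‖f‖ ^ 2) := by
        gcongr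
        exact (h1.trans h2).trans (tsum_coeff_le f)
    _ = ENNReal.ofReal (M * ‖f‖ ^ 2) := (ENNReal.ofReal_mul (by positivity)).symm

/-! ### A sequence with unbounded block lengths -/

def rr (k : ℕ) : ℝ := (k + 1) / 2 ^ 11

lemma rr_strictMono : StrictMono rr := by
  intro m n h
  unfold rr
  have : (m : ℝ) < n := by exact_mod_cast h
  gcongr

lemma rr_admissible : Admissible rr := by
  refine ⟨rr_strictMono.monotone, fun k => ⟨by unfold rr; positivity, ?_⟩, ?_⟩
  · unfold rr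
    have h1 : ((k : ℝ) + 1) < 2 ^ (k + 1) := by
      have : k + 1 < 2 ^ (k + 1) := Nat.lt_two_pow_self
      exact_mod_cast this
    have h2 : (2 : ℝ) ^ ((k : ℤ) - 10) = 2 ^ (k + 1) / 2 ^ 11 := by
      rw [eq_div_iff (by positivity), ← zpow_natCast, ← zpow_natCast, ← zpow_add₀ (by norm_num)]
      congr 1
      push_cast
      ring
    rw [h2]
    gcongr
  · unfold rr
    refine Tendsto.atTop_div_const (by positivity) ?_
    exact tendsto_atTop_add_const_right _ _ tendsto_natCast_atTop_atTop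

lemma rr_unbounded (M : ℕ) : ∃ s, M < lam rr (s + 1) - lam rr s := by
  refine ⟨M, ?_⟩
  have h1 := lam_mem rr_admissible M
  have h2 : M ≤ lam rr M := (lam_strictMono rr_admissible).id_le M
  unfold rr at h1
  rw [le_div_iff₀ (by positivity), ← pow_add] at h1
  have h3 : 2 ^ (lam rr M + 11) ≤ lam rr (M + 1) + 1 := by
    have : ((2 ^ (lam rr M + 11) : ℕ) : ℝ) ≤ ((lam rr (M + 1) + 1 : ℕ) : ℝ) := by
      push_cast; exact h1
    exact_mod_cast this
  have h4 : lam rr M < 2 ^ (lam rr M) := Nat.lt_two_pow_self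
  have h5 : 2 ^ (lam rr M + 11) = 2048 * 2 ^ (lam rr M) := by ring
  omega

end

theorem main :
    (∃ r : ℕ → ℝ, StrictMono r ∧ Admissible r ∧ ¬ BlockBound r) ∧
    ∀ r : ℕ → ℝ, Admissible r →
      (BlockBound r ↔ ∃ M : ℕ, ∀ s : ℕ, lam r (s + 1) - lam r s ≤ M) := by
  refine ⟨⟨rr, rr_strictMono, rr_admissible, not_blockBound rr_admissible rr_unbounded⟩,
    fun r hr => ⟨fun h => ?_, blockBound_of_bounded hr⟩⟩
  by_contra hM
  refine not_blockBound hr (fun M => ?_) h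
  by_contra hM'
  exact hM ⟨M, fun s => not_lt.1 fun hs => hM' ⟨s, hs⟩⟩

end Pool.Agent.LacunaryBlocks
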